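import Mathlib

/-!
# Brouwer fixed point theorem on the cube (Milnor - Rogers proof)
-/

open MeasureTheory Set Filter Topology Metric

namespace Pool.Agent.Helper23.VS

noncomputable section

variable {n : ℕ}


abbrev EE (n : ℕ) := EuclideanSpace ℝ (Fin n)

/-- Interpolation identity for `det (1 + t A)`. -/
lemma det_interp (t : Fin (n + 1) → ℝ) (ht : Function.Injective t) :
    ∃ w : Fin (n + 1) → ℝ, (∑ k, w k = 1) ∧
      ∀ A : EE n →L[ℝ] EE n,
        (1 + A).det = ∑ k, w k * (1 + t k • A).det := by
  classical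
  refine ⟨fun k => (Lagrange.basis Finset.univ t k).eval 1, ?_, ?_⟩
  · rw [← Polynomial.eval_finsetSum, Lagrange.sum_basis ht.injOn ⟨0, Finset.mem_univ _⟩]
    simp
  · intro A
    let b := (EuclideanSpace.basisFun (Fin n) ℝ).toBasis
    let M : Matrix (Fin n) (Fin n) ℝ := LinearMap.toMatrix b b (A : EE n →ₗ[ℝ] EE n)
    have hdet : ∀ s : ℝ, (1 + s • A).det = (s • M + 1).det := by
      intro s
      have h1 : ((1 + s • A : EE n →L[ℝ] EE n) : EE n →ₗ[ℝ] EE n)
          = 1 + s • (A : EE n →ₗ[ℝ] EE n) := by
        ext v i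
        simp
      rw [ContinuousLinearMap.det, h1, ← LinearMap.det_toMatrix b]
      congr 1
      rw [add_comm]
      simp only [map_add, map_smul]
      congr 1
      exact LinearMap.toMatrix_one b
    let q : Polynomial ℝ :=
      Matrix.det ((Polynomial.X : Polynomial ℝ) • M.map Polynomial.C +
        (1 : Matrix (Fin n) (Fin n) ℝ).map Polynomial.C)
    have hq : ∀ s : ℝ, q.eval s = (s • M + 1).det := by
      intro s
      have : q.eval s = (Polynomial.evalRingHom s) q := rfl
      rw [this]
      show (Polynomial.evalRingHom s) (Matrix.det _) = _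
      rw [RingHom.map_det]
      congr 1
      ext i j
      simp [Matrix.map_apply, Matrix.one_apply]
      split_ifs <;> simp [mul_comm]
    have hdeg : q.degree < (Finset.univ : Finset (Fin (n + 1))).card := by
      have h1 := Polynomial.natDegree_det_X_add_C_le M 1
      simp only [Fintype.card_fin] at h1
      rw [Finset.card_univ, Fintype.card_fin]
      exact lt_of_le_of_lt (Polynomial.degree_le_of_natDegree_le h1) (by exact_mod_cast Nat.lt_succ_self n)
    have hint := Lagrange.eq_interpolate (s := Finset.univ) (v := t) ht.injOn hdeg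
    have h2 : q.eval 1 = ∑ k, q.eval (t k) * (Lagrange.basis Finset.univ t k).eval 1 := by
      conv_lhs => rw [hint]
      rw [Lagrange.interpolate_apply, Polynomial.eval_finsetSum]
      simp
    have h3 := hdet 1
    rw [one_smul] at h3
    rw [h3, ← hq 1, h2]
    refine Finset.sum_congr rfl fun k _ => ?_
    rw [hq, hdet, mul_comm]

/-- A differentiable map of constant nonzero norm has zero Jacobian determinant. -/
lemma det_eq_zero_of_norm_const {g : EE n → EE n} {R : ℝ} (hR : 0 < R) (hg : Differentiable ℝ g)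
    (hn : ∀ x, ‖g x‖ = R) (x : EE n) : (fderiv ℝ g x).det = 0 := by
  by_contra hdet
  have hsurj : Function.Surjective (fderiv ℝ g x) := by
    have hu : IsUnit (LinearMap.det ((fderiv ℝ g x : EE n →L[ℝ] EE n) : EE n →ₗ[ℝ] EE n)) :=
      isUnit_iff_ne_zero.2 hdet
    exact (LinearMap.equivOfDetNeZero _ hdet).surjective
  obtain ⟨v, hv⟩ := hsurj (g x)
  have h1 : HasFDerivAt (fun y => ‖g y‖ ^ 2) (2 • (innerSL ℝ (g x)).comp (fderiv ℝ g x)) x :=
    (hg x).hasFDerivAt.norm_sq
  have h2 : HasFDerivAt (fun y => ‖g y‖ ^ 2) (0 : EE n →L[ℝ] ℝ) x := by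
    have : (fun y => ‖g y‖ ^ 2) = fun _ => R ^ 2 := by
      funext y; rw [hn]
    rw [this]
    exact hasFDerivAt_const _ _
  have h3 := h1.unique h2
  have h4 := congrArg (fun L : EE n →L[ℝ] ℝ => L v) h3
  simp [hv] at h4
  have h5 := hn x
  rw [h4] at h5
  simp at h5
  exact hR.ne h5

/-- There is no `C^1` map of constant norm `R` which is the identity on the sphere. -/
theorem no_retraction {g : EE n → EE n} {R : ℝ} (hR : 0 < R) (hg : ContDiff ℝ 1 g)
    (hn : ∀ x, ‖g x‖ = R) (hs : ∀ x, ‖x‖ = R → g x = x) : False := by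
  classical
  have hgd : Differentiable ℝ g := hg.differentiable (by norm_num)
  have hgc : Continuous (fderiv ℝ g) := hg.continuous_fderiv (by norm_num)
  set K := closedBall (0 : EE n) R with hK
  have hKc : IsCompact K := isCompact_closedBall _ _
  -- the derivative of `h = g - id`
  let h' : EE n → EE n →L[ℝ] EE n := fun x => fderiv ℝ g x - 1
  have hh'c : Continuous h' := hgc.sub continuous_const
  obtain ⟨C, hC⟩ := hKc.exists_bound_of_continuousOn hh'c.continuousOn
  have hC0 : 0 ≤ C := le_trans (norm_nonneg _) (hC 0 (by simp [hK, hR.le]))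
  let f : ℝ → EE n → EE n := fun t x => x + t • (g x - x)
  let f' : ℝ → EE n → EE n →L[ℝ] EE n := fun t x => 1 + t • h' x
  have hf' : ∀ t x, HasStrictFDerivAt (f t) (f' t x) x := by
    intro t x
    have h1 : HasStrictFDerivAt g (fderiv ℝ g x) x :=
      (hg.contDiffAt).hasStrictFDerivAt (by norm_num)
    exact (hasStrictFDerivAt_id x).add ((h1.sub (hasStrictFDerivAt_id x)).const_smul t)
  -- Lipschitz bound
  have hlip : ∀ x ∈ K, ∀ y ∈ K, ‖(g x - x) - (g y - y)‖ ≤ C * ‖x - y‖ := by
    intro x hx y hy
    have := Convex.norm_image_sub_le_of_norm_hasFDerivWithin_le (f := fun x => g x - x)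
      (f' := h') (s := K) (C := C) (x := y) (y := x)
      (fun z _ => (((hgd z).hasFDerivAt).sub (hasFDerivAt_id z)).hasFDerivWithinAt) hC
      (convex_closedBall _ _) hy hx
    exact this
  -- small times
  set t₀ : ℝ := 1 / (2 * (C + 1)) with ht₀
  have ht₀pos : 0 < t₀ := by positivity
  have ht₀C : t₀ * C < 1 := by
    rw [ht₀, div_mul_eq_mul_div, one_mul, div_lt_one (by positivity)]; linarith
  have ht₀1 : t₀ < 1 := by
    rw [ht₀, div_lt_one (by positivity)]; linarith
  have hinv : ∀ t ∈ Icc 0 t₀, ∀ x ∈ K, 0 < (f' t x).det := by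
    intro t ht x hx
    have hne : ∀ s ∈ Icc (0:ℝ) t₀, (f' s x).det ≠ 0 := by
      intro s hs hdet
      have hbot : LinearMap.ker ((f' s x : EE n →L[ℝ] EE n) : EE n →ₗ[ℝ] EE n) = ⊥ := by
        rw [LinearMap.ker_eq_bot']
        intro v hv
        by_contra hv0
        have hv1 : v = - (s • h' x v) := by
          have : v + s • h' x v = 0 := by simpa [f'] using hv
          exact eq_neg_of_add_eq_zero_left this
        have h2 : ‖v‖ ≤ s * (C * ‖v‖) := by
          calc ‖v‖ = ‖s • h' x v‖ := by conv_lhs => rw [hv1, norm_neg]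
            _ = s * ‖h' x v‖ := by rw [norm_smul, Real.norm_of_nonneg hs.1]
            _ ≤ s * (C * ‖v‖) := by
              refine mul_le_mul_of_nonneg_left ?_ hs.1
              exact (h' x).le_of_opNorm_le (hC x hx) v
        have hvpos : 0 < ‖v‖ := norm_pos_iff.2 hv0
        have h3 : s * C < 1 := lt_of_le_of_lt (mul_le_mul_of_nonneg_right hs.2 hC0) ht₀C
        nlinarith
      have := LinearMap.isUnit_iff_ker_eq_bot _ |>.2 hbot
      have h4 : IsUnit (LinearMap.det ((f' s x : EE n →L[ℝ] EE n) : EE n →ₗ[ℝ] EE n)) :=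
        this.map LinearMap.det
      exact h4.ne_zero hdet
    have hcont : Continuous fun s : ℝ => (f' s x).det := by
      have : Continuous fun s : ℝ => f' s x := by
        simp only [f']
        fun_prop
      exact ContinuousLinearMap.continuous_det.comp this
    have h0 : (f' 0 x).det = 1 := by simp [f', ContinuousLinearMap.det]
    by_contra hle
    push Not at hle
    have hle' : (f' t x).det < 0 := lt_of_le_of_ne hle (hne t ht)
    have : (0:ℝ) ∈ (fun s : ℝ => (f' s x).det) '' Icc 0 t := by
      apply intermediate_value_Icc' ht.1 hcont.continuousOn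
      constructor
      · exact hle'.le
      · simp [h0]
    obtain ⟨s, hs, hs0⟩ := this
    exact hne s ⟨hs.1, hs.2.trans ht.2⟩ hs0
  have hinj : ∀ t ∈ Icc 0 t₀, InjOn (f t) K := by
    intro t ht x hx y hy hxy
    have h1 : x - y = - (t • ((g x - x) - (g y - y))) := by
      have : x + t • (g x - x) = y + t • (g y - y) := hxy
      rw [smul_sub]
      rw [eq_comm, neg_sub]
      rw [sub_eq_sub_iff_add_eq_add]
      rw [add_comm, ← this, add_comm]
    have h2 : ‖x - y‖ ≤ t * (C * ‖x - y‖) := by
      calc ‖x - y‖ = ‖t • ((g x - x) - (g y - y))‖ := by conv_lhs => rw [h1, norm_neg]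
        _ = t * ‖(g x - x) - (g y - y)‖ := by rw [norm_smul, Real.norm_of_nonneg ht.1]
        _ ≤ t * (C * ‖x - y‖) := mul_le_mul_of_nonneg_left (hlip x hx y hy) ht.1
    by_contra hne
    have hpos : 0 < ‖x - y‖ := norm_pos_iff.2 (sub_ne_zero.2 hne)
    have h3 : t * C < 1 := lt_of_le_of_lt (mul_le_mul_of_nonneg_right ht.2 hC0) ht₀C
    nlinarith
  have himg : ∀ t ∈ Icc 0 t₀, f t '' ball 0 R = ball 0 R := by
    intro t ht
    have ht1 : t < 1 := lt_of_le_of_lt ht.2 ht₀1
    have hmaps : ∀ x ∈ ball (0 : EE n) R, f t x ∈ ball (0 : EE n) R := by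
      intro x hx
      rw [mem_ball_zero_iff] at hx ⊢
      have : f t x = (1 - t) • x + t • g x := by simp only [f]; module
      rw [this]
      calc ‖(1 - t) • x + t • g x‖ ≤ ‖(1 - t) • x‖ + ‖t • g x‖ := norm_add_le _ _
        _ = (1 - t) * ‖x‖ + t * R := by
          rw [norm_smul, norm_smul, hn, Real.norm_of_nonneg ht.1, Real.norm_of_nonneg (by linarith)]
        _ < R := by nlinarith
    have hopen : IsOpen (f t '' ball 0 R) := by
      rw [isOpen_iff_mem_nhds]
      rintro _ ⟨x, hx, rfl⟩
      have hdet := hinv t ht x (ball_subset_closedBall hx)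
      let e : EE n ≃L[ℝ] EE n := ContinuousLinearMap.toContinuousLinearEquivOfDetNeZero (f' t x) hdet.ne'
      have h1 : HasStrictFDerivAt (f t) (e : EE n →L[ℝ] EE n) x := by
        have : (e : EE n →L[ℝ] EE n) = f' t x := by
          ext v; simp [e]
        rw [this]
        exact hf' t x
      rw [← h1.map_nhds_eq_of_equiv]
      exact image_mem_map (isOpen_ball.mem_nhds hx)
    have hcl : IsClosed (f t '' K) := by
      refine (hKc.image ?_).isClosed
      have : Differentiable ℝ (f t) := fun x => (hf' t x).differentiableAt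
      exact this.continuous
    refine Subset.antisymm (image_subset_iff.2 hmaps) ?_
    have hconn : IsPreconnected (ball (0 : EE n) R) := (convex_ball _ _).isPreconnected
    refine hconn.subset_left_of_subset_union hopen hcl.isOpen_compl ?_ ?_ ?_
    · rw [disjoint_left]
      intro y hy hy2
      exact hy2 (image_mono ball_subset_closedBall hy)
    · intro y hy
      by_cases hyK : y ∈ f t '' K
      · left
        obtain ⟨x, hx, rfl⟩ := hyK
        refine ⟨x, ?_, rfl⟩
        rw [mem_ball_zero_iff]
        rcases lt_or_eq_of_le (mem_closedBall_zero_iff.1 hx) with h | h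
        · exact h
        · exfalso
          have h2 : f t x = x := by simp [f, hs x h]
          rw [h2, mem_ball_zero_iff, h] at hy
          exact lt_irrefl _ hy
      · right; exact hyK
    · exact ⟨f t 0, hmaps 0 (by simp [hR]), ⟨0, by simp [hR], rfl⟩⟩
  have hvol : ∀ t ∈ Icc 0 t₀, ∫ x in ball (0 : EE n) R, (f' t x).det = volume.real (ball (0 : EE n) R) := by
    intro t ht
    have h1 := integral_image_eq_integral_abs_det_fderiv_smul (volume : Measure (EE n))
      (s := ball 0 R) (f := f t) (f' := f' t) measurableSet_ball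
      (fun x _ => (hf' t x).hasFDerivAt.hasFDerivWithinAt)
      ((hinj t ht).mono ball_subset_closedBall) (fun _ => (1:ℝ))
    rw [himg t ht] at h1
    simp only [smul_eq_mul, mul_one, integral_const, measureReal_restrict_apply_univ] at h1
    rw [h1]
    refine setIntegral_congr_fun measurableSet_ball fun x hx => ?_
    exact (abs_of_pos (hinv t ht x (ball_subset_closedBall hx))).symm
  -- interpolation
  obtain ⟨w, hw1, hw⟩ := det_interp (n := n) (fun k : Fin (n + 1) => t₀ * ((k : ℕ) / (n + 1 : ℝ)))
    (by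
      intro a b hab
      have h1 := mul_left_cancel₀ ht₀pos.ne' hab
      have h2 : ((n : ℝ) + 1) ≠ 0 := by positivity
      field_simp at h1
      exact Fin.ext (by exact_mod_cast h1))
  have hint : ∀ t : ℝ, IntegrableOn (fun x => (f' t x).det) (ball (0 : EE n) R) := by
    intro t
    have hc : Continuous fun x => (f' t x).det := by
      have : Continuous fun x => f' t x := by
        simp only [f']
        fun_prop
      exact ContinuousLinearMap.continuous_det.comp this
    exact (hc.continuousOn.integrableOn_compact hKc).mono_set ball_subset_closedBall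
  have h1 : ∫ x in ball (0 : EE n) R, (1 + h' x).det = volume.real (ball (0 : EE n) R) := by
    have : ∀ x, (1 + h' x).det = ∑ k : Fin (n + 1), w k * (f' (t₀ * ((k : ℕ) / (n + 1 : ℝ))) x).det :=
      fun x => hw (h' x)
    simp_rw [this]
    rw [integral_finsetSum _ (fun k _ => (hint _).const_mul _)]
    have h2 : ∀ k : Fin (n + 1), ∫ x in ball (0 : EE n) R,
        w k * (f' (t₀ * ((k : ℕ) / (n + 1 : ℝ))) x).det = w k * volume.real (ball (0 : EE n) R) := by
      intro k
      rw [integral_const_mul, hvol]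
      constructor
      · positivity
      · refine mul_le_of_le_one_right ht₀pos.le ?_
        rw [div_le_one (by positivity)]
        have := k.2
        exact_mod_cast this.le
    simp_rw [h2]
    rw [← Finset.sum_mul, hw1, one_mul]
  have h2 : ∀ x, (1 + h' x).det = 0 := by
    intro x
    have : 1 + h' x = fderiv ℝ g x := by simp [h']
    rw [this]
    exact det_eq_zero_of_norm_const hR hgd hn x
  simp_rw [h2] at h1
  simp only [integral_zero] at h1
  have h3 : 0 < volume.real (ball (0 : EE n) R) := by
    refine ENNReal.toReal_pos (isOpen_ball.measure_pos _ ⟨0, by simp [hR]⟩).ne' measure_ball_lt_top.ne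
  linarith

/-- A smooth map which is the identity far away has a zero. -/
theorem exists_zero_of_eq_id {w : EE n → EE n} {R : ℝ} (hR : 0 < R) (hw : ContDiff ℝ 1 w)
    (hid : ∀ x, R ≤ ‖x‖ → w x = x) : ∃ x, w x = 0 := by
  by_contra hne
  push Not at hne
  have hn : ∀ x, 0 < ‖w x‖ := fun x => norm_pos_iff.2 (hne x)
  let g : EE n → EE n := fun x => (R * ‖w x‖⁻¹) • w x
  refine no_retraction (g := g) hR ?_ ?_ ?_
  · have h1 : ContDiff ℝ 1 fun x => ‖w x‖ := hw.norm ℝ hne
    exact (contDiff_const.mul (h1.inv fun x => (hn x).ne')).smul hw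
  · intro x
    simp only [g]
    rw [norm_smul, norm_mul, norm_inv, norm_norm, Real.norm_of_nonneg hR.le, mul_assoc,
      inv_mul_cancel₀ (hn x).ne', mul_one]
  · intro x hx
    simp only [g]
    rw [hid x hx.ge, hx, mul_inv_cancel₀ hR.ne', one_smul]

/-- A continuous map which is the identity far away has a zero. -/
theorem exists_zero_of_eq_id_continuous {v : EE n → EE n} {R : ℝ} (hR : 0 < R) (hv : Continuous v)
    (hid : ∀ x, R ≤ ‖x‖ → v x = x) : ∃ x, v x = 0 := by
  classical
  by_contra hne
  push Not at hne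
  -- lower bound
  obtain ⟨μ, hμ, hμv⟩ : ∃ μ : ℝ, 0 < μ ∧ ∀ x, μ ≤ ‖v x‖ := by
    obtain ⟨x₀, -, hx₀⟩ := (isCompact_closedBall (0 : EE n) R).exists_isMinOn ⟨0, by simp [hR.le]⟩
      hv.norm.continuousOn
    refine ⟨min ‖v x₀‖ R, lt_min (norm_pos_iff.2 (hne x₀)) hR, fun x => ?_⟩
    rcases le_total R ‖x‖ with h | h
    · rw [hid x h]; exact (min_le_right _ _).trans h
    · exact (min_le_left _ _).trans (hx₀ (mem_closedBall_zero_iff.2 h))
  let u : EE n → EE n := fun x => v x - x
  have hu : Continuous u := hv.sub continuous_id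
  let t : EE n → Set (EE n) := fun x => ball (u x) μ ∩ {y | R + 1 ≤ ‖x‖ → y = 0}
  obtain ⟨g, hg⟩ := exists_contMDiffMap_forall_mem_convex_of_local_const (n := (1 : ℕ∞))
    (modelWithCornersSelf ℝ (EE n)) (M := EE n) (F := EE n) (t := t)
    (by
      intro x
      refine (convex_ball _ _).inter ?_
      by_cases hx : R + 1 ≤ ‖x‖
      · simpa [hx] using convex_singleton (𝕜 := ℝ) (0 : EE n)
      · simp [hx, convex_univ])
    (by
      intro x
      rcases le_or_gt (R + 1) ‖x‖ with hx | hx
      · refine ⟨0, ?_⟩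
        have h1 : ∀ᶠ y in 𝓝 x, R < ‖y‖ :=
          continuous_norm.continuousAt.eventually (lt_mem_nhds (by linarith))
        filter_upwards [h1] with y hy
        refine ⟨?_, fun _ => rfl⟩
        have : u y = 0 := by simp [u, hid y hy.le]
        rw [this]
        exact mem_ball_self hμ
      · refine ⟨u x, ?_⟩
        have h1 : ∀ᶠ y in 𝓝 x, ‖y‖ < R + 1 :=
          continuous_norm.continuousAt.eventually (gt_mem_nhds hx)
        have h2 : ∀ᶠ y in 𝓝 x, dist (u x) (u y) < μ := by
          have : Continuous fun y => dist (u x) (u y) := continuous_const.dist hu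
          exact this.continuousAt.eventually (gt_mem_nhds (by simpa using hμ))
        filter_upwards [h1, h2] with y hy hy2
        exact ⟨hy2, fun h => absurd h (not_le.2 hy)⟩)
  have hgd : ContDiff ℝ 1 g := g.contMDiff.contDiff
  obtain ⟨x, hx⟩ := exists_zero_of_eq_id (w := fun x => x + g x) (R := R + 1) (by linarith)
    (contDiff_id.add hgd) (by
      intro x hx
      simp [(hg x).2 hx])
  have h1 : ‖g x - u x‖ < μ := by
    have := (hg x).1
    rwa [mem_ball_iff_norm] at this
  have h2 : g x - u x = - v x := by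
    have : g x = - x := eq_neg_of_add_eq_zero_right hx
    rw [this]
    simp only [u]
    abel
  rw [h2, norm_neg] at h1
  exact absurd (hμv x) (not_le.2 h1)

/-- Bounded continuous maps of the Euclidean space have fixed points. -/
theorem exists_fixed_of_bounded {F : EE n → EE n} (hF : Continuous F) {M : ℝ}
    (hM : ∀ x, ‖F x‖ ≤ M) : ∃ x, F x = x := by
  have hM0 : 0 ≤ M := (norm_nonneg _).trans (hM 0)
  let χ : EE n → ℝ := fun x => max 0 (min 1 (M + 2 - ‖x‖))
  have hχ : Continuous χ := by
    simp only [χ]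
    fun_prop
  obtain ⟨x, hx⟩ := exists_zero_of_eq_id_continuous (v := fun x => x - χ x • F x) (R := M + 2)
    (by linarith) (continuous_id.sub (hχ.smul hF)) (by
      intro x hx
      have : χ x = 0 := by
        simp only [χ]
        rw [max_eq_left]
        exact (min_le_right _ _).trans (by linarith)
      simp [this])
  refine ⟨x, ?_⟩
  have h1 : x = χ x • F x := sub_eq_zero.1 hx
  have hχ1 : χ x ≤ 1 := max_le zero_le_one (min_le_left _ _)
  have hχ0 : 0 ≤ χ x := le_max_left _ _
  have h2 : ‖x‖ ≤ M := by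
    rw [h1, norm_smul, Real.norm_of_nonneg hχ0]
    calc χ x * ‖F x‖ ≤ 1 * M := mul_le_mul hχ1 (hM x) (norm_nonneg _) zero_le_one
      _ = M := one_mul _
  have h3 : χ x = 1 := by
    simp only [χ]
    rw [min_eq_left (by linarith)]
    simp
  rw [h3, one_smul] at h1
  exact h1.symm

/-- Brouwer's fixed point theorem on the cube. -/
theorem brouwer_cube (n : ℕ) (f : (Fin n → ℝ) → (Fin n → ℝ))
    (hf : ContinuousOn f (Icc 0 1)) (hmap : MapsTo f (Icc 0 1) (Icc 0 1)) :
    ∃ x ∈ Icc (0 : Fin n → ℝ) 1, f x = x := by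
  classical
  let e := EuclideanSpace.equiv (Fin n) ℝ
  let cl : (Fin n → ℝ) → (Fin n → ℝ) := fun x i => max 0 (min 1 (x i))
  have hcl : Continuous cl := by
    simp only [cl]
    fun_prop
  have hcl1 : ∀ x, cl x ∈ Icc (0 : Fin n → ℝ) 1 := by
    intro x
    constructor
    · intro i; exact le_max_left _ _
    · intro i; exact max_le zero_le_one (min_le_left _ _)
  have hcl2 : ∀ x ∈ Icc (0 : Fin n → ℝ) 1, cl x = x := by
    intro x hx
    funext i
    have h1 := hx.1 i
    have h2 := hx.2 i
    simp only [Pi.zero_apply, Pi.one_apply] at h1 h2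
    simp only [cl]
    rw [min_eq_right h2, max_eq_right h1]
  let F : EE n → EE n := fun x => e.symm (f (cl (e x)))
  have hF : Continuous F := by
    have h1 : Continuous fun x : EE n => f (cl (e x)) :=
      hf.comp_continuous (hcl.comp e.continuous) fun x => hcl1 _
    exact e.symm.continuous.comp h1
  obtain ⟨M, hM⟩ : ∃ M : ℝ, ∀ x, ‖F x‖ ≤ M := by
    have h1 : IsCompact (e.symm '' (f '' Icc (0 : Fin n → ℝ) 1)) :=
      (isCompact_Icc.image_of_continuousOn hf).image e.symm.continuous
    obtain ⟨M, hM⟩ := h1.isBounded.exists_norm_le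
    exact ⟨M, fun x => hM _ ⟨_, ⟨_, hcl1 _, rfl⟩, rfl⟩⟩
  obtain ⟨x, hx⟩ := exists_fixed_of_bounded hF hM
  have h1 : f (cl (e x)) = e x := by
    have := congrArg e hx
    simpa [F] using this
  have h2 : e x ∈ Icc (0 : Fin n → ℝ) 1 := by
    rw [← h1]
    exact hmap (hcl1 _)
  refine ⟨e x, h2, ?_⟩
  rw [hcl2 _ h2] at h1
  exact h1

end

end Pool.Agent.Helper23.VS
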